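import Pool.Agent.Helper57.DG2.Growth

set_option autoImplicit false

/-!
# MP_74ecc6_co: Ramsey hosts of bounded degree grow exponentially
-/

namespace Pool.Agent.Results.MP_74ecc6_co.ExponentialGrowth

open Filter

/-- The graph `G` is Ramsey for `H`: every colouring of pairs of vertices of `G` with two colours
has a monochromatic copy of `H`. -/
def Ramsey {V W : Type} (G : SimpleGraph W) (H : SimpleGraph V) : Prop :=
  ∀ c : Sym2 W → Bool, ∃ (b : Bool) (f : H.Copy G), ∀ u v, H.Adj u v → c s(f u, f v) = b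

/-- There are connected graphs `H n` on `n` vertices of maximum degree at most 3 such that every
graph `G`, finite or infinite, of maximum degree at most `D` which is Ramsey for `H n` contains a
copy of `H n` all of whose vertices have balls of more than `2 ^ ((1 / 2 - ε) R)` vertices for all
radii `R` between `K log n` and `c (log n) ^ 2 log log n`, for all `D`, all `ε > 0` and all large
`n`, where `c > 0` and `K` depend on `D` and `ε`. -/
theorem result : ∃ H : (n : ℕ) → SimpleGraph (Fin n),
    (∀ n v, ((H n).neighborSet v).ncard ≤ 3) ∧ (∀ n, 0 < n → (H n).Connected) ∧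
    ∀ (D : ℕ) (ε : ℝ), 0 < ε → ∃ c K : ℝ, 0 < c ∧ 0 < K ∧ ∀ᶠ n : ℕ in atTop,
    ∀ (W : Type) (G : SimpleGraph W), (∀ x, (G.neighborSet x).encard ≤ D) → Ramsey G (H n) →
    ∃ f : (H n).Copy G, ∀ (v : Fin n) (R : ℕ), K * Real.log n ≤ R →
      R ≤ c * Real.log n ^ 2 * Real.log (Real.log n) →
      (2 : ℝ) ^ ((1 / 2 - ε) * R) < {y | G.edist (f v) y ≤ R}.ncard :=
  Pool.Agent.Helper57.DG2.growth

end Pool.Agent.Results.MP_74ecc6_co.ExponentialGrowth
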