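import Pool.Agent.Helper57.DG2.Views

set_option autoImplicit false

/-!
# MP_74ecc6_co: Ramsey hosts of bounded degree have many different local views
-/

namespace Pool.Agent.Results.MP_74ecc6_co.LocalViews

open Filter

/-- The graph `G` is Ramsey for `H`: every colouring of pairs of vertices of `G` with two colours
has a monochromatic copy of `H`. -/
def Ramsey {V W : Type} (G : SimpleGraph W) (H : SimpleGraph V) : Prop :=
  ∀ c : Sym2 W → Bool, ∃ (b : Bool) (f : H.Copy G), ∀ u v, H.Adj u v → c s(f u, f v) = b

/-- The balls of radius `r` around `x` and `y` are isomorphic, `x` going to `y`. -/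
def SameView {W : Type} (G : SimpleGraph W) (r : ℕ) (x y : W) : Prop :=
  ∃ e : G.induce {u | G.edist x u ≤ r} ≃g G.induce {u | G.edist y u ≤ r},
    ∀ u, (e u : W) = y ↔ (u : W) = x

/-- There are graphs `H n` on `n` vertices of maximum degree at most 3 with the following property,
for all `D`, `J`, `C` and all large `n`. Let `G` be a graph, finite or infinite, of maximum degree
at most `D` which is Ramsey for `H n`, let its vertices be coloured with `J` colours and each colour
class divided into parts at distance more than `2 log₂ n` from each other. Then the vertices of some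
part have more than `n ^ (C log n)` different views of radius `2 log₂ n`. -/
theorem result : ∃ H : (n : ℕ) → SimpleGraph (Fin n),
    (∀ n v, ((H n).neighborSet v).ncard ≤ 3) ∧
    ∀ (D J : ℕ) (C : ℝ), ∀ᶠ n : ℕ in atTop,
    ∀ (W ι : Type) (G : SimpleGraph W), (∀ x, (G.neighborSet x).encard ≤ D) → Ramsey G (H n) →
    ∀ (col : W → Fin J) (part : W → ι),
    (∀ x y, col x = col y → G.edist x y ≤ (2 * Nat.log 2 n : ℕ) → part x = part y) →
    ∃ j p, ∀ R : Finset W,
      (∀ x, col x = j → part x = p → ∃ y ∈ R, SameView G (2 * Nat.log 2 n) x y) →
      (n : ℝ) ^ (C * Real.log n) < R.card :=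
  Pool.Agent.Helper57.DG2.views

end Pool.Agent.Results.MP_74ecc6_co.LocalViews
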