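import Pool.Agent.Helper57.DG2.Separator

set_option autoImplicit false

/-!
# MP_74ecc6_co: Ramsey hosts of bounded degree cannot be cut into small pieces
-/

namespace Pool.Agent.Results.MP_74ecc6_co.NoSeparators

open Filter

/-- The graph `G` is Ramsey for `H`: every colouring of pairs of vertices of `G` with two colours
has a monochromatic copy of `H`. -/
def Ramsey {V W : Type} (G : SimpleGraph W) (H : SimpleGraph V) : Prop :=
  ∀ c : Sym2 W → Bool, ∃ (b : Bool) (f : H.Copy G), ∀ u v, H.Adj u v → c s(f u, f v) = b

/-- There are connected graphs `H n` on `n` vertices of maximum degree at most 3 with the following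
property, for all `D`, all `ε > 0`, some `c > 0` and all large `n`. If `G` is a graph, finite or
infinite, of maximum degree at most `D` which is Ramsey for `H n`, and if all connected sets of
vertices of `G` outside `S` have at most `exp (c (log n) ^ 2 log log n)` elements, then some copy
of `H n` in `G` has more than `n ^ (1 - ε)` vertices in `S`. -/
theorem result : ∃ H : (n : ℕ) → SimpleGraph (Fin n),
    (∀ n v, ((H n).neighborSet v).ncard ≤ 3) ∧ (∀ n, 0 < n → (H n).Connected) ∧
    ∀ (D : ℕ) (ε : ℝ), 0 < ε → ∃ c : ℝ, 0 < c ∧ ∀ᶠ n : ℕ in atTop,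
    ∀ (W : Type) (G : SimpleGraph W), (∀ x, (G.neighborSet x).encard ≤ D) → Ramsey G (H n) →
    ∀ S : Set W, (∀ T : Set W, Disjoint T S → (G.induce T).Connected → T.Finite ∧
      (T.ncard : ℝ) ≤ Real.exp (c * Real.log n ^ 2 * Real.log (Real.log n))) →
    ∃ f : (H n).Copy G, (n : ℝ) ^ (1 - ε) < {v | f v ∈ S}.ncard :=
  Pool.Agent.Helper57.DG2.separator

end Pool.Agent.Results.MP_74ecc6_co.NoSeparators
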