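import Pool.Agent.Helper57.DG2.Short

set_option autoImplicit false

/-!
# MP_74ecc6_co: Ramsey hosts of bounded degree have many types of balls of radius `ε log n`
-/

namespace Pool.Agent.Results.MP_74ecc6_co.SmallBalls

open Filter

/-- The graph `G` is Ramsey for `H`: every colouring of pairs of vertices of `G` with two colours
has a monochromatic copy of `H`. -/
def Ramsey {V W : Type} (G : SimpleGraph W) (H : SimpleGraph V) : Prop :=
  ∀ c : Sym2 W → Bool, ∃ (b : Bool) (f : H.Copy G), ∀ u v, H.Adj u v → c s(f u, f v) = b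

/-- The balls of radius `r` around `x` and `y` are isomorphic, `x` going to `y`. -/
def SameView {W : Type} (G : SimpleGraph W) (r : ℕ) (x y : W) : Prop :=
  ∃ e : G.induce {u | G.edist x u ≤ r} ≃g G.induce {u | G.edist y u ≤ r},
    ∀ u, (e u : W) = y ↔ (u : W) = x

/-- There are graphs `H n` on `n` vertices of maximum degree at most 3 such that for all `D`, `C`,
`ε > 0` and all large `n` every graph `G`, finite or infinite, of maximum degree at most `D` which
is Ramsey for `H n` has more than `n ^ C` isomorphism types of balls of radius `ε log n`. -/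
theorem result : ∃ H : (n : ℕ) → SimpleGraph (Fin n),
    (∀ n v, ((H n).neighborSet v).ncard ≤ 3) ∧
    ∀ (D : ℕ) (C ε : ℝ), 0 < ε → ∀ᶠ n : ℕ in atTop,
    ∀ (W : Type) (G : SimpleGraph W), (∀ x, (G.neighborSet x).encard ≤ D) → Ramsey G (H n) →
    ∀ R : Finset W, (∀ x, ∃ y ∈ R, SameView G ⌊ε * Real.log n⌋₊ x y) → (n : ℝ) ^ C < R.card :=
  Pool.Agent.Helper57.DG2.short_views

end Pool.Agent.Results.MP_74ecc6_co.SmallBalls
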